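import Pool.Agent.H7.LP.Targets3

/-! # Row ORQ of the board lpq_modules: the orbits of structures and of points -/

set_option autoImplicit false

open Set Filter Topology
open Pool.Agent.H93.CP Pool.Agent.H7.LP Pool.Agent.H7.LQ

namespace Pool.Agent.H19.LQ

theorem pf_ORQ (h1 : T_PRQ) (h2 : T_ISQ) (h3 : T_SHQ) (h4 : T_RIQ) : T_ORQ := by
  intro G X _ _ _ _ _ _ B L M _ Y S x x' e e' w w' hc hs hc' hs'
  constructor
  · intro hI
    obtain ⟨e'', hc'', hs''⟩ := h2 G X B L M Y S x e w w' hc hs hI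
    exact h4 G X B L M Y S x x' e'' e' w' hc'' hc' hs'' hs'
  · rintro ⟨m, rfl⟩
    obtain ⟨k1, k2⟩ := h3 G X B L M Y S x m e w hc hs
    exact h1 G X B L M Y S (m • x) _ e' w w' k1 hc' k2 hs'

end Pool.Agent.H19.LQ
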