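import Pool.Agent.H7.LP.Targets3

/-! # Row SBQ of the board lpq_modules: the canonical code is a code with the same structure -/

set_option autoImplicit false

open Set Filter Topology
open Pool.Agent.H93.CP Pool.Agent.H7.LP Pool.Agent.H7.LQ

namespace Pool.Agent.H19.LQ

theorem pf_SBQ (h1 : T_LBT) (h2 : T_KKA) (h3 : T_NCO) (_h4 : T_ADG) (h5 : T_INQ)
    (h6 : T_SAQ) : T_SBQ := by
  intro G X _ _ _ _ _ _ B L M _ Y S sel F E hsel hF hE x e w a hc hs ha
  obtain ⟨hst, -⟩ := h6 G X B L M Y S sel F hsel hF x e w hc hs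
  -- the group of a node is closed
  have hKcl : ∀ (k m : ℕ) (g : G), IsClosed (KX B L Y k m x g : Set G) := by
    intro k m g
    obtain ⟨e1, e2, -, -⟩ := h1 G X L M Y k x g
    exact (h2 G B (L.R k) (L.H k) (lb L Y k x g) (L.piece k) e1 e2).2.2.2.1 m
  have hmem : ∀ i, E w i * a * ((e i).2.2)⁻¹ ∈
      KX B L Y (e i).1 (e i).2.1 x (e i).2.2 := by
    intro i
    obtain ⟨s, hle, hEi⟩ := hE w i ⟨i + 1, (hst i).cof⟩
    have hLe : Le B L Y x (e (F w s).1) (e i) := (hs.le _ _).1 hle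
    obtain ⟨a0, ha0⟩ : ∃ a0, a0 = (e (F w s).1).2.2 * ((e i).2.2)⁻¹ := ⟨_, rfl⟩
    obtain ⟨K, hK⟩ : ∃ K, K = KX B L Y (e i).1 (e i).2.1 x (e i).2.2 := ⟨_, rfl⟩
    have hcl : IsClosed {z : G | a0⁻¹ * z ∈ K} := by
      have h7 : IsClosed (K : Set G) := by rw [hK]; exact hKcl _ _ _
      exact h7.preimage (continuous_const.mul continuous_id)
    have hc' := hsel.mem {z : G | a0⁻¹ * z ∈ K} (w.2 (F w s).1 i).2 hcl
      ⟨a0, by
        show a0⁻¹ * a0 ∈ K
        rw [inv_mul_cancel]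
        exact K.one_mem⟩ (fun p => by
        rw [hs.q, ← ha0, ← hK]
        constructor
        · rintro ⟨-, u, hu, hup⟩
          refine ⟨a0 * u, ?_, hup⟩
          show a0⁻¹ * (a0 * u) ∈ K
          rw [inv_mul_cancel_left]
          exact hu
        · rintro ⟨z, hz, hzp⟩
          refine ⟨hLe, a0⁻¹ * z, hz, ?_⟩
          rw [mul_inv_cancel_left]
          exact hzp) 0
    have hmK := hLe.mK _ (ha s)
    rw [← ha0, ← hK] at hmK
    rw [← hK]
    have h8 := K.mul_mem (K.inv_mem hc') hmK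
    have h9 : E w i * a * ((e i).2.2)⁻¹ = (a0⁻¹ * sel (w.2 (F w s).1 i).2 0)⁻¹ *
        (a0⁻¹ * ((F w s).2 * a * ((e (F w s).1).2.2)⁻¹) * a0) := by
      rw [hEi, ha0]
      group
    rw [h9]
    exact h8
  obtain ⟨h10, h11⟩ := h5 G X B L M Y S x e
    (fun i => ((w.1 i).1, (w.1 i).2.1, E w i * a)) hc
    (fun i => ⟨hs.k i, hs.m i, hmem i⟩)
  refine ⟨fun s => ?_, h10, h11 w hs⟩
  have h12 := (h3 G X B L M Y S _ _ x _ _ (ha s)).1
  have h13 : (F w s).2 * a = ((F w s).2 * a * ((e (F w s).1).2.2)⁻¹) *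
      (e (F w s).1).2.2 := by group
  rw [h13, hs.k, h12]
  exact hs.y _

end Pool.Agent.H19.LQ
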