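import Pool.Agent.H7.LP.Targets3

/-! # Row UNR of the board lpq_modules: uniqueness -/

set_option autoImplicit false

open Set Filter Topology
open Pool.Agent.H93.CP Pool.Agent.H7.LP Pool.Agent.H7.LQ

namespace Pool.Agent.H19.LQ

theorem pf_UNR (h1 : Pool.Agent.H7.LP.T_EQV) (h2 : Pool.Agent.H7.LP.T_LSM) : T_UNR := by
  intro G X _ _ _ _ L M _ Y σ _hσ hσ2 k b x x' a a' ha ha' hx hR
  have h3 : tr a (Y.C x) = tr a' (Y.C x') := by
    refine h2 G (fun s => L.R (k (s + 1))) (fun s => b (s + 1)) a a' (Y.C x) (Y.C x')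
      (Y.cl x) (Y.cl x') ?_ ?_
    · intro U hU
      obtain ⟨s, hs⟩ := L.small U hU
      exact ⟨s, fun r hr => hs _ (hR s r hr)⟩
    · intro s
      exact hx (s + 1)
  have h4 : tr (a'⁻¹ * a) (Y.C x) = Y.C x' := by
    rw [tr_mul, h3, ← tr_mul, inv_mul_cancel, tr_one]
  obtain ⟨m, hm, hmx⟩ := h1 G X M Y (a'⁻¹ * a) x x' h4
  have h5 : a = a' * m := by
    rw [hm]
    group
  have h6 : a = a' := by
    rw [← ha, ← ha', h5]
    conv_rhs => rw [ha']
    exact (hσ2 a' m m.2).trans ha'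
  have h7 : m = 1 := by
    apply Subtype.ext
    rw [hm, h6]
    simp
  rw [h7, one_smul] at hmx
  exact ⟨hmx, h6⟩

end Pool.Agent.H19.LQ
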